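import Pool.Agent.helper33.GR2.Spec

set_option autoImplicit false

open Complex Metric Set Filter Topology MeasureTheory
open MPS (om)
open PPS (pre TT fd)
open XPS (Df er dens tau)
open Pool.Agent.helper16.Multibrot

noncomputable section

namespace GR

theorem BEX_succ (c : ℂ) (j : ℕ) : Z 2 c (j + 1) = Z 2 c j ^ 2 + c := by
  simp only [Z, Function.iterate_succ_apply']

theorem BEX (hAEX : AEX_stmt) (hBDM : BDM_stmt) : BEX_stmt := by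
  intro c hc hnh m t hm ht
  have hB : ∀ j, ‖Z 2 c j‖ ≤ 2 := hBDM 2 c le_rfl hc
  have hZ0 : Z 2 c 0 = 0 := by simp [Z]
  have key : ∀ i : ℕ, ‖Z 2 c (m + 1 + i) - Z 2 c (1 + i)‖ ≤ 6 ^ i * ‖Z 2 c m‖ ^ 2 := by
    intro i
    induction i with
    | zero =>
      have h1 : Z 2 c (m + 1 + 0) - Z 2 c (1 + 0) = Z 2 c m ^ 2 := by
        have e1 : Z 2 c (1 + 0) = Z 2 c 0 ^ 2 + c := BEX_succ c 0
        have e2 : Z 2 c (m + 1 + 0) = Z 2 c m ^ 2 + c := BEX_succ c m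
        rw [e1, e2, hZ0]; ring
      rw [h1, norm_pow]; simp
    | succ i ih =>
      have e1 : Z 2 c (m + 1 + (i + 1)) = Z 2 c (m + 1 + i) ^ 2 + c := BEX_succ c (m + 1 + i)
      have e2 : Z 2 c (1 + (i + 1)) = Z 2 c (1 + i) ^ 2 + c := BEX_succ c (1 + i)
      have e3 : Z 2 c (m + 1 + (i + 1)) - Z 2 c (1 + (i + 1))
          = (Z 2 c (m + 1 + i) + Z 2 c (1 + i)) * (Z 2 c (m + 1 + i) - Z 2 c (1 + i)) := by
        rw [e1, e2]; ring
      rw [e3, norm_mul]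
      have h4 : ‖Z 2 c (m + 1 + i) + Z 2 c (1 + i)‖ ≤ 6 := by
        have := norm_add_le (Z 2 c (m + 1 + i)) (Z 2 c (1 + i))
        have a := hB (m + 1 + i)
        have b := hB (1 + i)
        linarith
      calc ‖Z 2 c (m + 1 + i) + Z 2 c (1 + i)‖ * ‖Z 2 c (m + 1 + i) - Z 2 c (1 + i)‖
          ≤ 6 * (6 ^ i * ‖Z 2 c m‖ ^ 2) := mul_le_mul h4 ih (norm_nonneg _) (by norm_num)
        _ = 6 ^ (i + 1) * ‖Z 2 c m‖ ^ 2 := by rw [pow_succ]; ring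
  by_contra hcon
  push Not at hcon
  obtain ⟨h1, h2⟩ := max_lt_iff.mp hcon
  obtain ⟨i, rfl⟩ : ∃ i, t = 1 + i := ⟨t - 1, by omega⟩
  have hk := key i
  have hA := hAEX c hc hnh (1 + i) ht
  set d : ℝ := (1 / 6 : ℝ) ^ (1 + i) with hd
  have hdpos : 0 < d := by positivity
  have h6 : (6 : ℝ) ^ i * d = 1 / 6 := by
    rw [hd, pow_add, pow_one, one_div_pow]
    field_simp
  have hsq : ‖Z 2 c m‖ ^ 2 ≤ (d / 8) ^ 2 := pow_le_pow_left₀ (norm_nonneg _) h1.le 2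
  have hk2 : ‖Z 2 c (m + 1 + i) - Z 2 c (1 + i)‖ ≤ d / 384 := by
    calc ‖Z 2 c (m + 1 + i) - Z 2 c (1 + i)‖ ≤ 6 ^ i * ‖Z 2 c m‖ ^ 2 := hk
      _ ≤ 6 ^ i * (d / 8) ^ 2 := mul_le_mul_of_nonneg_left hsq (by positivity)
      _ = (6 ^ i * d) * (d / 64) := by ring
      _ = d / 384 := by rw [h6]; ring
  have e5 : m + (1 + i) = m + 1 + i := by ring
  rw [e5] at h2
  have h7 : ‖Z 2 c (1 + i)‖ ≤ ‖Z 2 c (m + 1 + i)‖ + ‖Z 2 c (m + 1 + i) - Z 2 c (1 + i)‖ := by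
    have := norm_sub_le (Z 2 c (m + 1 + i)) (Z 2 c (m + 1 + i) - Z 2 c (1 + i))
    simpa using this
  linarith

end GR
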